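import Pool.Agent.Q80.Tame.Main

/-!
Every reduced hypersurface that is not a cone is tame with respect to `n - 1` elements of some
minimal set of generators of its module of Jacobian syzygies.

Starting from a minimal set of generators sorted by degree one replaces, one after another, the
`n - 1` generators of largest degree by general homogeneous combinations of themselves and of the
remaining generators; general here means that the chosen syzygies stay linearly independent modulo
every irreducible polynomial, which makes their span saturated.
-/

namespace Pool.Agent.Results.MP_0a8f3f_ag.AlwaysTame

open MvPolynomial Pool.Agent.Q80.Tame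

/-- For `n = k + 1 ≥ 2` and `d ≥ 3`, every reduced form `f` of degree `d` in `n + 1` variables
whose partial derivatives are linearly independent (`V : f = 0` is not a cone) is tame with
respect to `n - 1` elements of some minimal set of generators of `D_0(f)`. -/
theorem result : ∀ k d : ℕ, 1 ≤ k → 3 ≤ d → ∀ f : MvPolynomial (Fin (k + 2)) ℂ,
    f.IsHomogeneous d → Squarefree f → LinearIndependent ℂ (fun j => pderiv j f) →
    ∃ (m : ℕ) (ρ : Fin m → Fin (k + 2) → MvPolynomial (Fin (k + 2)) ℂ) (j : Fin k → Fin m),
      IsMinGens f ρ ∧ Function.Injective j ∧ IsTame f (fun i => ρ (j i)) := by
  intro k d _ hd f hf hsq _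
  exact main (by omega) f hf hsq.ne_zero

end Pool.Agent.Results.MP_0a8f3f_ag.AlwaysTame
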